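import Pool.Agent.Helper38.WY.Goals3
import Pool.Agent.Helper96.PB.XLIN

/-!
# Project WY: the line without conditions above `p` (`F_LIN`)
-/

set_option autoImplicit false

namespace Pool.Agent.Helper56.WY

open NumberField Polynomial Module IsDedekindDomain
open Pool.Agent.Helper51.RP Pool.Agent.Helper42.RD Pool.Agent.Helper42.PP
open Pool.Agent.Helper76.PB
open Pool.Agent.Helper38.WY
open Pool.Agent.Helper96.PB (p_le_one van_of_split root_below)

theorem f_lin (h1 : F_CNT) (h2 : X_DB) (h3 : X_KLB) : F_LIN := by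
  intro p hp F E₁ E₂ _ _ _ _ _ _ _ _ _ _ _ _ _ _ ε hε hE₁ _ Z hZ hab hunr hPr hInj hPr₂
    f hf hN w hw
  by_cases hf0 : ∃ x, f x ≠ 0
  · obtain ⟨b, hbu, -, hb⟩ := h1 p F ε hε Z hZ hab hPr hInj f hf hf0
    obtain ⟨y, hy⟩ := h2 p F E₂ ε hε Z hZ hab hunr hPr f hf hf0 b hb
      fun w' hw' => van_of_split (E := E₂) p hZ hPr₂ hf hN hw'
    obtain ⟨r, hr⟩ := root_below (E₁ := E₁) hε hE₁ b.ne_zero y hy
    obtain ⟨hwZ, W, hW, hWf⟩ := hw
    apply hb w hwZ
    have hwp : w.valuation F (p : F) = 1 := by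
      rcases lt_or_eq_of_le (p_le_one p w) with h | h
      · exact absurd (hab h) hwZ
      · exact h
    have hwb : ordv w (b : F) = 0 := by
      have h4 : w.valuation F (b : F) = 1 := hbu w hwZ
      unfold ordv
      rw [h4, WithZero.log_one, neg_zero]
    exact h3.1 p F E₁ w W hW hWf hwp b r hr b.ne_zero hwb
  · push Not at hf0
    intro x _
    exact hf0 x

end Pool.Agent.Helper56.WY
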